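import Mathlib
import Pool.Agent.H713R2.TC

/-!
# The coefficient problem for alpha-convex (Mocanu) functions (MP_1f2de8_an)

Definitions and task statements.  Throughout `0 < α < 1`, `D = ball 0 1`,
`L = log (K_α(z)/z)` for the alpha-convex Koebe function, `m = (1-z)(ρ-1)/(2z)`,
`ρ = z K'/K = 1 + 2 z m/(1-z)`, `n = 1/m`.
-/

set_option autoImplicit false

open Complex Metric Set PowerSeries
open scoped BigOperators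

namespace Pool.Agent.TH775.AC

open Pool.Agent.H713R2 (tc)

/-- data of the alpha-convex Koebe function `K_α = z exp L` -/
structure KD (α : ℝ) (L m : ℂ → ℂ) : Prop where
  dL : DifferentiableOn ℂ L (ball 0 1)
  L0 : L 0 = 0
  dm : DifferentiableOn ℂ m (ball 0 1)
  m0 : m 0 = 1 / (1 + (α : ℂ))
  derivL : ∀ z ∈ ball (0 : ℂ) 1, deriv L z = 2 * m z / (1 - z)
  ode : ∀ z ∈ ball (0 : ℂ) 1, (α : ℂ) * (1 - z) * (z * deriv m z) =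
    -((α : ℂ) * m z) + (1 - z + 2 * z * m z) * (1 - m z)
  rho : ∀ z ∈ ball (0 : ℂ) 1, 0 < (1 + 2 * z * m z / (1 - z)).re
  logid : ∀ z ∈ ball (0 : ℂ) 1,
    (α : ℂ) * Complex.log (1 + 2 * z * m z / (1 - z)) + L z = -2 * Complex.log (1 - z)
  conj : ∀ z ∈ ball (0 : ℂ) 1, m (starRingEnd ℂ z) = starRingEnd ℂ (m z)

/-- `ℓ = log (f(z)/z)` for an alpha-convex function `f`; `p = 1 + z ℓ' = z f'/f`. -/
structure ML (α : ℝ) (l : ℂ → ℂ) : Prop where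
  dl : DifferentiableOn ℂ l (ball 0 1)
  l0 : l 0 = 0
  pne : ∀ z ∈ ball (0 : ℂ) 1, 1 + z * deriv l z ≠ 0
  pos : ∀ z ∈ ball (0 : ℂ) 1, 0 < ((1 + z * deriv l z) +
    (α : ℂ) * (z * deriv (fun z => 1 + z * deriv l z) z) / (1 + z * deriv l z)).re

/-- (1) Jack's lemma. -/
def S_JACK : Prop := ∀ (ω : ℂ → ℂ) (z₀ : ℂ), z₀ ≠ 0 →
  (∀ z ∈ closedBall (0 : ℂ) ‖z₀‖, DifferentiableAt ℂ ω z) → ω 0 = 0 → ω z₀ ≠ 0 →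
  (∀ z ∈ closedBall (0 : ℂ) ‖z₀‖, ‖ω z‖ ≤ ‖ω z₀‖) →
  ∃ k : ℝ, 1 ≤ k ∧ z₀ * deriv ω z₀ = k * ω z₀

/-- (2) first touching principle for a quotient `A/B` -/
def S_QUOT : Prop := ∀ (A B : ℂ → ℂ), DifferentiableOn ℂ A (ball 0 1) →
  DifferentiableOn ℂ B (ball 0 1) → A 0 = 0 → (∀ z ∈ ball (0 : ℂ) 1, ¬ (A z = 0 ∧ B z = 0)) →
  (∀ z ∈ ball (0 : ℂ) 1, z ≠ 0 → ‖A z‖ = ‖B z‖ → ∀ k : ℝ, 1 ≤ k →
    z * (deriv A z * B z - A z * deriv B z) = k * (A z * B z) → False) →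
  ∀ z ∈ ball (0 : ℂ) 1, ‖A z‖ < ‖B z‖

/-- (3) first touching principle for the right half plane -/
def S_HP : Prop := ∀ (q : ℂ → ℂ) (a : ℝ), 0 < a → DifferentiableOn ℂ q (ball 0 1) → q 0 = a →
  (∀ z ∈ ball (0 : ℂ) 1, z ≠ 0 → (q z).re = 0 → ∀ k : ℝ, 1 ≤ k →
    z * deriv q z = ((-(k * (a ^ 2 + (q z).im ^ 2) / (2 * a)) : ℝ) : ℂ) → False) →
  ∀ z ∈ ball (0 : ℂ) 1, 0 < (q z).re

/-- (4) the function `y = 1/ρ` -/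
def S_Y : Prop := ∀ α : ℝ, 0 < α → α < 1 → ∃ y : ℂ → ℂ, DifferentiableOn ℂ y (ball 0 1) ∧
  y 0 = 1 ∧ deriv y 0 = -2 / (1 + (α : ℂ)) ∧
  (∀ z ∈ ball (0 : ℂ) 1, (1 + z) * y z + (α : ℂ) * z * (1 - z) * deriv y z = 1 - z) ∧
  (∀ z ∈ ball (0 : ℂ) 1, y (starRingEnd ℂ z) = starRingEnd ℂ (y z))

/-- (5) existence of the data -/
def S_KD : Prop := ∀ α : ℝ, 0 < α → α < 1 → ∃ L m : ℂ → ℂ, KD α L m

/-- (6) `Re (1/m) > 2/(2-α)` -/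
def S_N1 : Prop := ∀ (α : ℝ) (L m : ℂ → ℂ), 0 < α → α < 1 → KD α L m →
  ∀ z ∈ ball (0 : ℂ) 1, m z ≠ 0 ∧ 2 / (2 - α) < ((m z)⁻¹).re

/-- (7) signs -/
def S_N2 : Prop := ∀ (α : ℝ) (L m : ℂ → ℂ), 0 < α → α < 1 → KD α L m →
  ∀ z ∈ ball (0 : ℂ) 1, ((m z)⁻¹).im * z.im ≤ 0 ∧
    ((m z)⁻¹).im * (2 * z * m z / (1 - z)).im ≤ 0

/-- the function `r` -/
noncomputable def rr (α : ℝ) (m : ℂ → ℂ) (z : ℂ) : ℂ :=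
  (2 - (m z)⁻¹ - (1 - (α : ℂ)) * m z +
    (1 - (α : ℂ)) * ((1 + z) / (1 - z)) * (m z - (1 - (α : ℂ) / 2))) / ((1 - (α : ℂ)) * α)

/-- (8) the main positivity -/
def S_R : Prop := ∀ (α : ℝ) (L m : ℂ → ℂ), 0 < α → α < 1 → KD α L m →
  ∀ z ∈ ball (0 : ℂ) 1, 0 < (rr α m z).re

/-- `X = (1-z)² K'`, `K = exp L` -/
noncomputable def XX (L m : ℂ → ℂ) (z : ℂ) : ℂ := 2 * m z * (1 - z) * Complex.exp (L z)

/-- (9) the function `κ` -/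
def S_KAP : Prop := ∀ (α : ℝ) (L m : ℂ → ℂ), 0 < α → α < 1 → KD α L m →
  ∃ κ : ℂ → ℂ, DifferentiableOn ℂ κ (ball 0 1) ∧
    (∀ z ∈ ball (0 : ℂ) 1, deriv (XX L m) z * (1 - z) ^ 2 =
      ((1 - α : ℝ) : ℂ) * (XX L m z * κ z)) ∧
    (∀ z ∈ ball (0 : ℂ) 1, ((1 / (1 - z)).re - 1 / 2) * ‖κ z‖ ^ 2 ≤ (κ z).re)

/-- (10) `L` is univalent -/
def S_INJ : Prop := ∀ (α : ℝ) (L m : ℂ → ℂ), 0 < α → α < 1 → KD α L m →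
  InjOn L (ball (0 : ℂ) 1)

/-- (11) subordination from a key inequality -/
def S_SUB : Prop := ∀ (L l : ℂ → ℂ), DifferentiableOn ℂ L (ball 0 1) → InjOn L (ball (0 : ℂ) 1) →
  (∀ z ∈ ball (0 : ℂ) 1, deriv L z ≠ 0) → L 0 = 0 → DifferentiableOn ℂ l (ball 0 1) → l 0 = 0 →
  (∀ z₀ ∈ ball (0 : ℂ) 1, z₀ ≠ 0 → ∀ ζ ∈ ball (0 : ℂ) 1, ζ ≠ 0 → L ζ = l z₀ → ∀ k : ℝ, 1 ≤ k →
    z₀ * deriv l z₀ = k * (ζ * deriv L ζ) → ‖ζ‖ ≤ ‖z₀‖) →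
  ∃ ω : ℂ → ℂ, DifferentiableOn ℂ ω (ball 0 1) ∧ (∀ z ∈ ball (0 : ℂ) 1, ‖ω z‖ ≤ ‖z‖) ∧
    ∀ z ∈ ball (0 : ℂ) 1, L (ω z) = l z

/-- (12) `Re p > 0` -/
def S_A : Prop := ∀ (α : ℝ) (l : ℂ → ℂ), 0 < α → ML α l →
  ∀ z ∈ ball (0 : ℂ) 1, 0 < (1 + z * deriv l z).re

/-- (13) `Re √(s(z)/z) > 1/2` -/
def S_B : Prop := ∀ (α : ℝ) (l : ℂ → ℂ), 0 < α → ML α l →
  ∀ z ∈ ball (0 : ℂ) 1,
    1 / 2 < (Complex.exp (((α : ℂ) * Complex.log (1 + z * deriv l z) + l z) / 2)).re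

/-- (14) key inequality -/
def S_KEY : Prop := ∀ (α : ℝ) (L m l : ℂ → ℂ), 0 < α → α < 1 → KD α L m → ML α l →
  ∀ z₀ ∈ ball (0 : ℂ) 1, z₀ ≠ 0 → ∀ ζ ∈ ball (0 : ℂ) 1, ζ ≠ 0 → L ζ = l z₀ → ∀ k : ℝ, 1 ≤ k →
    z₀ * deriv l z₀ = k * (ζ * deriv L ζ) → ‖ζ‖ ≤ ‖z₀‖

/-- (15) subordination -/
def S_SUBL : Prop := ∀ (α : ℝ) (L m l : ℂ → ℂ), 0 < α → α < 1 → KD α L m → ML α l →
  ∃ ω : ℂ → ℂ, DifferentiableOn ℂ ω (ball 0 1) ∧ (∀ z ∈ ball (0 : ℂ) 1, ‖ω z‖ ≤ ‖z‖) ∧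
    ∀ z ∈ ball (0 : ℂ) 1, L (ω z) = l z

/-- the moment curve -/
def gam (N : ℕ) (x : ℂ) : Fin N → ℂ := fun j => x ^ ((j : ℕ) + 1)

/-- the convex hull of the moment curve of the unit circle -/
def CN (N : ℕ) : Set (Fin N → ℂ) := convexHull ℝ (gam N '' sphere (0 : ℂ) 1)

/-- (16) Caratheodory: coefficients of functions with `Re q ≥ q(0)/2` -/
def S_HULL : Prop := ∀ (N : ℕ) (q : ℂ → ℂ) (a : ℝ), 0 < a → DifferentiableOn ℂ q (ball 0 1) →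
  q 0 = a → (∀ z ∈ ball (0 : ℂ) 1, a / 2 ≤ (q z).re) →
  (fun j : Fin N => tc q ((j : ℕ) + 1) / a) ∈ CN N

/-- (17) algebraic inequality -/
def S_ALG : Prop := ∀ (a₁ a₂ b : ℂ) (μ₁ μ₂ : ℝ), 0 < μ₁ → 0 < μ₂ → 0 ≤ a₁.re → 0 ≤ a₂.re →
  0 ≤ b.re → μ₁ * a₁ + μ₂ * a₂ + b ≠ 0 →
  0 ≤ (a₁ / μ₁ + a₂ / μ₂ - (a₁ - a₂) ^ 2 / (μ₁ * a₁ + μ₂ * a₂ + b)).re

/-- the series `∑_{j<N} c_j X^(j+1)` -/
noncomputable def GS {N : ℕ} (c : Fin N → ℂ) : ℂ⟦X⟧ :=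
  PowerSeries.mk fun i => if h : 1 ≤ i ∧ i ≤ N then c ⟨i - 1, by omega⟩ else 0

/-- `∑_{k ≤ N} φ_k [X^N] A^k` -/
noncomputable def LF (φ : ℕ → ℂ) (N : ℕ) (A : ℂ⟦X⟧) : ℂ :=
  ∑ k ∈ Finset.range (N + 1), φ k * PowerSeries.coeff N (A ^ k)

/-- (18) derivative of `LF` along a line -/
def S_DER : Prop := ∀ (φ : ℕ → ℂ) (N : ℕ) (A B : ℂ⟦X⟧) (t : ℝ),
  HasDerivAt (fun t : ℝ => LF φ N (A + PowerSeries.C (t : ℂ) * B))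
    (∑ k ∈ Finset.range (N + 1), φ k *
      PowerSeries.coeff N ((k : ℂ⟦X⟧) * (A + PowerSeries.C (t : ℂ) * B) ^ (k - 1) * B)) t ∧
  HasDerivAt (fun t : ℝ => ∑ k ∈ Finset.range (N + 1), φ k *
      PowerSeries.coeff N ((k : ℂ⟦X⟧) * (A + PowerSeries.C (t : ℂ) * B) ^ (k - 1) * B))
    (∑ k ∈ Finset.range (N + 1), φ k *
      PowerSeries.coeff N ((k : ℂ⟦X⟧) * ((k - 1 : ℕ) : ℂ⟦X⟧) *
        (A + PowerSeries.C (t : ℂ) * B) ^ (k - 2) * B ^ 2)) t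

/-- Taylor series at the origin -/
noncomputable def TS (f : ℂ → ℂ) : ℂ⟦X⟧ := PowerSeries.mk (tc f)

/-- (19) composition: `Φ` analytic at `0`, `s` analytic in a disc, `s 0 = 0`; the Taylor series of
`Φ ∘ s` modulo `X^M` -/
def S_COMP : Prop := ∀ (Φ s : ℂ → ℂ) (R : ℝ) (M : ℕ), 0 < R → AnalyticAt ℂ Φ 0 →
  DifferentiableOn ℂ s (ball 0 R) → s 0 = 0 →
  (PowerSeries.X : ℂ⟦X⟧) ^ M ∣
    TS (fun z => Φ (s z)) - ∑ k ∈ Finset.range M, PowerSeries.C (tc Φ k) * (TS s) ^ k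

/-- (20) coefficient domination for functions `K` with `κ` of positive type -/
def S_V : Prop := ∀ (K X κ : ℂ → ℂ) (lam : ℝ) (N : ℕ), 0 < lam → 1 ≤ N →
  DifferentiableOn ℂ K (ball 0 1) → DifferentiableOn ℂ X (ball 0 1) →
  DifferentiableOn ℂ κ (ball 0 1) →
  (∀ z ∈ ball (0 : ℂ) 1, deriv K z * (1 - z) ^ 2 = X z) →
  (∀ z ∈ ball (0 : ℂ) 1, deriv X z * (1 - z) ^ 2 = lam * (X z * κ z)) →
  (∀ z ∈ ball (0 : ℂ) 1, ((1 / (1 - z)).re - 1 / 2) * ‖κ z‖ ^ 2 ≤ (κ z).re) →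
  ∀ ω : ℂ → ℂ, DifferentiableOn ℂ ω (ball 0 1) → (∀ z ∈ ball (0 : ℂ) 1, ‖ω z‖ ≤ ‖z‖) →
    ‖tc (fun z => K (ω z)) N‖ ≤ ‖tc K N‖

/-- the class `S`: analytic and univalent in the unit disc, `f 0 = 0`, `f' 0 = 1` -/
structure ClassS (f : ℂ → ℂ) : Prop where
  diff : DifferentiableOn ℂ f (ball 0 1)
  inj : InjOn f (ball 0 1)
  zero : f 0 = 0
  one : deriv f 0 = 1

/-- the alpha-convex (Mocanu) functions -/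
structure MClass (α : ℝ) (f : ℂ → ℂ) : Prop where
  s : ClassS f
  pos : ∀ z ∈ ball (0 : ℂ) 1, z ≠ 0 →
    0 < ((α : ℂ) * (1 + z * deriv (deriv f) z / deriv f z) +
      (1 - (α : ℂ)) * (z * deriv f z / f z)).re

/-- (21) the logarithm of `f(z)/z` for an alpha-convex `f` -/
def S_LOG : Prop := ∀ (α : ℝ) (f : ℂ → ℂ), 0 < α → α < 1 → MClass α f →
  ∃ l : ℂ → ℂ, ML α l ∧ ∀ z ∈ ball (0 : ℂ) 1, f z = z * Complex.exp (l z)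

/-- (22) the extremal function belongs to the class -/
def S_EXT : Prop := ∀ (α : ℝ) (L m : ℂ → ℂ), 0 < α → α < 1 → KD α L m →
  MClass α (fun z => z * Complex.exp (L z))

/-- the Taylor coefficients of `z K_α'/K_α` -/
noncomputable def PP (α : ℝ) : ℕ → ℝ
  | 0 => 1
  | (m + 1) => (2 + ∑ j : Fin m, PP α ((j : ℕ) + 1) * (2 - PP α (m - (j : ℕ)))) /
      (1 + α * ((m : ℝ) + 1))
decreasing_by
  all_goals omega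

/-- the Taylor coefficients of `K_α` -/
noncomputable def Acoef (α : ℝ) : ℕ → ℝ
  | 0 => 0
  | 1 => 1
  | (n + 2) => (∑ k : Fin (n + 1), PP α (n + 1 - (k : ℕ)) * Acoef α ((k : ℕ) + 1)) / ((n : ℝ) + 1)
decreasing_by
  all_goals omega

/-- (23) the coefficients of the extremal function -/
def S_COEF : Prop := ∀ (α : ℝ) (L m : ℂ → ℂ), 0 < α → α < 1 → KD α L m → ∀ n : ℕ,
  tc (fun z => z * Complex.exp (L z)) n = (Acoef α n : ℂ) ∧ 0 ≤ Acoef α n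

end Pool.Agent.TH775.AC
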