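import Mathlib
import Pool.Agent.TH775.AC.Stmts

set_option autoImplicit false

namespace Pool.Agent.TH775.AC.RR

theorem quad_pos (Q0 A B x : ℝ) (hB : 0 < B) (hD : 0 < 4 * Q0 * B - A ^ 2) :
    0 < Q0 - A * x + B * x ^ 2 := by
  have e : 4 * B * (Q0 - A * x + B * x ^ 2) = (2 * B * x - A) ^ 2 + (4 * Q0 * B - A ^ 2) := by
    ring
  have h5 : 0 < 4 * B * (Q0 - A * x + B * x ^ 2) := by
    rw [e]; linarith [sq_nonneg (2 * B * x - A)]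
  exact (mul_pos_iff_of_pos_left (by positivity : 0 < 4 * B)).mp h5

theorem S_pos (k : ℝ) (h : 1 / 10 < k) : 0 < -9/16 + 183/32 * k + 4759/256 * k^2
          + 2189/256 * k^3 - 3260/256 * k^4 + 7274/256 * k^5 + 18822/256 * k^6
          + 7108/256 * k^7 + 1483/256 * k^8 + 9457/256 * k^9 := by
  have hk0 : 0 < k := by linarith
  have h1 : 0 < -9/16 + 183/32 * k + 4759/256 * k^2 := by nlinarith
  have h2' : 0 ≤ 2189/256 - 3260/256 * k + 7274/256 * k^2 := by nlinarith [sq_nonneg (k - 1/4)]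
  have h2 : 0 ≤ k^3 * (2189/256 - 3260/256 * k + 7274/256 * k^2) :=
    mul_nonneg (by positivity) h2'
  have h3 : 0 ≤ 18822/256 * k^6 + 7108/256 * k^7 + 1483/256 * k^8 + 9457/256 * k^9 := by
    positivity
  have e : -9/16 + 183/32 * k + 4759/256 * k^2
          + 2189/256 * k^3 - 3260/256 * k^4 + 7274/256 * k^5 + 18822/256 * k^6
          + 7108/256 * k^7 + 1483/256 * k^8 + 9457/256 * k^9 =
      (-9/16 + 183/32 * k + 4759/256 * k^2) + k^3 * (2189/256 - 3260/256 * k + 7274/256 * k^2)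
      + (18822/256 * k^6 + 7108/256 * k^7 + 1483/256 * k^8 + 9457/256 * k^9) := by ring
  rw [e]
  linarith

theorem A_neg (k : ℝ) (hk0 : 0 < k) (h : k ≤ 1 / 10) :
    -3/4 + 67/16 * k + 279/16 * k^2 + 22 * k^3 + 171/16 * k^4 - 89/16 * k^5 ≤ 0 := by
  have hk2 : 0 < k ^ 2 := by positivity
  have h2 : k ^ 2 ≤ 1/10 * k := by nlinarith
  have h3 : k ^ 3 ≤ 1/100 * k := by nlinarith
  have h4 : k ^ 4 ≤ 1/1000 * k := by nlinarith [mul_nonneg hk0.le hk2.le]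
  have h5 : 0 ≤ k ^ 5 := by positivity
  linarith

theorem B_pos (k : ℝ) (hk0 : 0 < k) (hk1 : k < 1) :
    0 < 17/4 + 19/2 * k + 33/4 * k^2 - 6 * k^3 := by
  have hk2 : 0 < k ^ 2 := by positivity
  have h3 : k ^ 3 ≤ k ^ 2 := by nlinarith
  nlinarith

theorem key_pos (k x : ℝ) (hk0 : 0 < k) (hk1 : k < 1) (hx : 0 ≤ x) :
    0 < (k^2 * (1/4 + 11/2 * k + 55/4 * k^2 + 49/4 * k^3 + 4 * k^4 + 1/4 * k^5))
      - (k * (-3/4 + 67/16 * k + 279/16 * k^2 + 22 * k^3 + 171/16 * k^4 - 89/16 * k^5)) * x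
      + (k^2 * (17/4 + 19/2 * k + 33/4 * k^2 - 6 * k^3)) * x ^ 2 := by
  have hk2 : 0 < k ^ 2 := by positivity
  have hB := mul_pos hk2 (B_pos k hk0 hk1)
  rcases le_or_gt k (1/10) with h | h
  · have hA : k * (-3/4 + 67/16 * k + 279/16 * k^2 + 22 * k^3 + 171/16 * k^4 - 89/16 * k^5) ≤ 0 :=
      mul_nonpos_of_nonneg_of_nonpos hk0.le (A_neg k hk0 h)
    have h1 : 0 < k^2 * (1/4 + 11/2 * k + 55/4 * k^2 + 49/4 * k^3 + 4 * k^4 + 1/4 * k^5) := by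
      positivity
    have h2 := mul_nonpos_of_nonpos_of_nonneg hA hx
    have h3 := mul_nonneg hB.le (sq_nonneg x)
    linarith
  · apply quad_pos _ _ _ _ hB
    have e : 4 * (k^2 * (1/4 + 11/2 * k + 55/4 * k^2 + 49/4 * k^3 + 4 * k^4 + 1/4 * k^5))
        * (k^2 * (17/4 + 19/2 * k + 33/4 * k^2 - 6 * k^3))
        - (k * (-3/4 + 67/16 * k + 279/16 * k^2 + 22 * k^3 + 171/16 * k^4 - 89/16 * k^5)) ^ 2
        = k^2 * (1 - k) * (-9/16 + 183/32 * k + 4759/256 * k^2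
          + 2189/256 * k^3 - 3260/256 * k^4 + 7274/256 * k^5 + 18822/256 * k^6
          + 7108/256 * k^7 + 1483/256 * k^8 + 9457/256 * k^9) := by ring
    rw [e]
    exact mul_pos (mul_pos hk2 (by linarith)) (S_pos k h)

theorem Q3_nonneg (k : ℝ) (hk0 : 0 < k) (hk1 : k < 1) :
    0 ≤ 3/4 + 7/4 * k + k^2 - 1/4 * k^3 - 13/4 * k^4 := by
  have : 3/4 + 7/4 * k + k^2 - 1/4 * k^3 - 13/4 * k^4
      = (1 - k) * (3/4 + 5/2 * k + 7/2 * k^2 + 13/4 * k^3) := by ring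
  rw [this]
  have : 0 ≤ 1 - k := by linarith
  positivity

/-- one variable polynomial facts in `k = 2c - 1` -/
theorem quart (k x : ℝ) (hk0 : 0 < k) (hk1 : k < 1) (hx : 0 ≤ x) :
    0 < 2 * ((1 + k) / 2) ^ 2 * k ^ 2 *
        (4 * ((1 + k) / 2) ^ 3 + 22 * ((1 + k) / 2) ^ 2 - 5 * ((1 + k) / 2) - 3)
      - ((1 + k) / 2) * k * (56 * ((1 + k) / 2) ^ 4 + 40 * ((1 + k) / 2) ^ 3
          - 62 * ((1 + k) / 2) ^ 2 + 17 * ((1 + k) / 2) - 3) * x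
      + 4 * ((1 + k) / 2) * k * (15 * ((1 + k) / 2) ^ 3 - 12 * ((1 + k) / 2) ^ 2
          + 2 * ((1 + k) / 2) - 1) * x ^ 2
      + (1 - (1 + k) / 2) * (52 * ((1 + k) / 2) ^ 3 - 50 * ((1 + k) / 2) ^ 2
          + 21 * ((1 + k) / 2) - 3) * x ^ 3
      + (1 - (1 + k) / 2) ^ 2 * (8 * ((1 + k) / 2) - 2) * x ^ 4 := by
  have h5 := key_pos k x hk0 hk1 hx
  have h6 := mul_nonneg (Q3_nonneg k hk0 hk1) (mul_nonneg hx (sq_nonneg (x - 3/2 * k)))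
  have h7 : 0 ≤ (((1 - k) / 2) ^ 2 * (2 + 4 * k)) * x ^ 4 := by positivity
  have e : 2 * ((1 + k) / 2) ^ 2 * k ^ 2 *
        (4 * ((1 + k) / 2) ^ 3 + 22 * ((1 + k) / 2) ^ 2 - 5 * ((1 + k) / 2) - 3)
      - ((1 + k) / 2) * k * (56 * ((1 + k) / 2) ^ 4 + 40 * ((1 + k) / 2) ^ 3
          - 62 * ((1 + k) / 2) ^ 2 + 17 * ((1 + k) / 2) - 3) * x
      + 4 * ((1 + k) / 2) * k * (15 * ((1 + k) / 2) ^ 3 - 12 * ((1 + k) / 2) ^ 2
          + 2 * ((1 + k) / 2) - 1) * x ^ 2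
      + (1 - (1 + k) / 2) * (52 * ((1 + k) / 2) ^ 3 - 50 * ((1 + k) / 2) ^ 2
          + 21 * ((1 + k) / 2) - 3) * x ^ 3
      + (1 - (1 + k) / 2) ^ 2 * (8 * ((1 + k) / 2) - 2) * x ^ 4
      = ((k^2 * (1/4 + 11/2 * k + 55/4 * k^2 + 49/4 * k^3 + 4 * k^4 + 1/4 * k^5))
      - (k * (-3/4 + 67/16 * k + 279/16 * k^2 + 22 * k^3 + 171/16 * k^4 - 89/16 * k^5)) * x
      + (k^2 * (17/4 + 19/2 * k + 33/4 * k^2 - 6 * k^3)) * x ^ 2)
      + (3/4 + 7/4 * k + k^2 - 1/4 * k^3 - 13/4 * k^4) * (x * (x - 3/2 * k) ^ 2)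
      + (((1 - k) / 2) ^ 2 * (2 + 4 * k)) * x ^ 4 := by
    ring
  rw [e]
  linarith

theorem pY (c x : ℝ) (hc0 : 1 / 2 < c) (hc1 : c < 1) (hx : 0 ≤ x) :
    0 ≤ 4 * c * (2 * c - 1) * (8 * c - 1 - c ^ 2) - x * (1 - c) * (20 * c ^ 2 - 22 * c + 3)
      + 2 * x ^ 2 * (1 - c) * (4 * c - 1) := by
  by_cases h : 20 * c ^ 2 - 22 * c + 3 ≤ 0
  · have h1 : 0 ≤ x * (1 - c) * (-(20 * c ^ 2 - 22 * c + 3)) :=
      mul_nonneg (mul_nonneg hx (by linarith)) (by linarith)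
    have h2 : 0 ≤ 4 * c * (2 * c - 1) * (8 * c - 1 - c ^ 2) :=
      mul_nonneg (mul_nonneg (by linarith) (by linarith)) (by nlinarith)
    have h3 : 0 ≤ 2 * x ^ 2 * (1 - c) * (4 * c - 1) :=
      mul_nonneg (mul_nonneg (by positivity) (by linarith)) (by linarith)
    linarith
  · push Not at h
    have hc9 : 9 / 10 < c := by
      by_contra hcon
      push Not at hcon
      nlinarith
    have hB1 : 20 * c ^ 2 - 22 * c + 3 ≤ 1 := by nlinarith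
    have h2 : 1 ≤ 4 * c * (2 * c - 1) * (8 * c - 1 - c ^ 2) := by
      have a1 : 1 ≤ 4 * c * (2 * c - 1) := by nlinarith
      have a2 : 1 ≤ 8 * c - 1 - c ^ 2 := by nlinarith
      nlinarith
    have h3 : x * (20 * c ^ 2 - 22 * c + 3) ≤ x := by nlinarith
    have h4 : 2 * x ^ 2 ≤ 2 * x ^ 2 * (4 * c - 1) := by nlinarith [sq_nonneg x]
    have h5 : (1 - c) * (x * (20 * c ^ 2 - 22 * c + 3)) ≤ (1 - c) * x :=
      mul_le_mul_of_nonneg_left h3 (by linarith)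
    have h6 : (1 - c) * (2 * x ^ 2) ≤ (1 - c) * (2 * x ^ 2 * (4 * c - 1)) :=
      mul_le_mul_of_nonneg_left h4 (by linarith)
    have h7 : (1 - c) * (x - 2 * x ^ 2) ≤ 1 := by
      have : x - 2 * x ^ 2 ≤ 1 := by nlinarith [sq_nonneg (x - 1/4)]
      nlinarith
    nlinarith

theorem mu_bound (c x : ℝ) (hc0 : 1 / 2 < c) (hc1 : c < 1) (hx : 0 ≤ x) :
    c * (2 * c - 1) * (1 - c) ≤
      3 * ((20 * c ^ 3 - 26 * c ^ 2 + 17 * c - 3) / 2 + (1 - c) * (8 * c - 2) / 2 * x) := by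
  have hc1' : 0 < 1 - c := by linarith
  have hκ : 0 < 2 * c - 1 := by linarith
  have h1 : 0 ≤ (1 - c) * (8 * c - 2) / 2 * x := by
    apply mul_nonneg _ hx
    have : 0 ≤ 8 * c - 2 := by linarith
    positivity
  have h2 : 3 / 4 ≤ (20 * c ^ 3 - 26 * c ^ 2 + 17 * c - 3) / 2 := by
    have e : (20 * c ^ 3 - 26 * c ^ 2 + 17 * c - 3) / 2 - 3 / 4
        = (2 * c - 1) * (10 * (c - 2/5) ^ 2 + 29 / 10) / 2 := by ring
    have : 0 ≤ (2 * c - 1) * (10 * (c - 2/5) ^ 2 + 29 / 10) / 2 := by positivity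
    linarith
  have h3 : c * (2 * c - 1) * (1 - c) ≤ 1 := by
    have h4 : c * (2 * c - 1) ≤ 1 := by nlinarith
    calc c * (2 * c - 1) * (1 - c) ≤ 1 * (1 - c) := mul_le_mul_of_nonneg_right h4 hc1'.le
      _ ≤ 1 := by linarith
  linarith

/-- the final contradiction in real form -/
theorem final_real (c x y η wr wi s : ℝ) (hc0 : 1 / 2 < c) (hc1 : c < 1) (hx : 0 < x)
    (hwr : 0 ≤ wr) (hs : 1 / 4 + η ^ 2 ≤ s)
    (e1 : (1 - c) * (x * wr - y * wi) = 2 * c ^ 2 * (2 * c - 1) * (1 + 2 * c)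
      - 4 * c ^ 2 * (2 * c - 1) * x + 2 * (1 - c) * (2 * c - 1) * η * y
      - 2 * c * (1 - c) * (x ^ 2 - y ^ 2))
    (e2 : (1 - c) * (x * wi + y * wr) = -4 * c ^ 2 * (2 * c - 1) * η
      - 4 * c ^ 2 * (2 * c - 1) * y - 2 * (1 - c) * (2 * c - 1) * η * x - 4 * c * (1 - c) * x * y)
    (e3 : -2 * (2 * c - 1) * (1 - c) * s = 2 * (1 - c) ^ 2 * (c * wr + η * wi)
      - 2 * c * (1 - c ^ 2) * (x ^ 2 - y ^ 2) + 2 * c * (2 * c + 1) * (1 - c) * η * y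
      + 2 * (2 * c - 1) * (1 - c) * η ^ 2 + x * (-c * (8 * c ^ 3 + 4 * c ^ 2 - 9 * c + 1))
      + (1 / 2 - 1 / 2 * c + 2 * c ^ 2 - 12 * c ^ 3 + 8 * c ^ 4 + 8 * c ^ 5))
    (e4 : 0 = 2 * (1 - c) ^ 2 * (c * wi - η * wr) - 4 * c * (1 - c ^ 2) * x * y
      - 2 * c * (2 * c + 1) * (1 - c) * η * x + y * (-c * (8 * c ^ 3 + 4 * c ^ 2 - 9 * c + 1))
      + η * (4 * c * (2 * c - 1) * (1 - c - c ^ 2))) : False := by
  have hc1' : 0 < 1 - c := by linarith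
  have hκ : 0 < 2 * c - 1 := by linarith
  have hc : 0 < c := by linarith
  set μ' : ℝ := (20 * c ^ 3 - 26 * c ^ 2 + 17 * c - 3) / 2 + (1 - c) * (8 * c - 2) / 2 * x with hμ
  set PY : ℝ := 4 * c * (2 * c - 1) * (8 * c - 1 - c ^ 2)
      - x * (1 - c) * (20 * c ^ 2 - 22 * c + 3) + 2 * x ^ 2 * (1 - c) * (4 * c - 1) with hPY
  set Q : ℝ := 2 * c ^ 2 * (2 * c - 1) ^ 2 * (4 * c ^ 3 + 22 * c ^ 2 - 5 * c - 3)
      - c * (2 * c - 1) * (56 * c ^ 4 + 40 * c ^ 3 - 62 * c ^ 2 + 17 * c - 3) * x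
      + 4 * c * (2 * c - 1) * (15 * c ^ 3 - 12 * c ^ 2 + 2 * c - 1) * x ^ 2
      + (1 - c) * (52 * c ^ 3 - 50 * c ^ 2 + 21 * c - 3) * x ^ 3
      + (1 - c) ^ 2 * (8 * c - 2) * x ^ 4 with hQ
  have hident : (1 - c) * wr * (12 * c * (2 * c - 1) * (1 - c) * η ^ 2
        + 4 * c * (2 * c - 1) * (1 - c) * η * y + μ' * y ^ 2 + 12 * c ^ 3 * (2 * c - 1) * (1 - c)
        - 4 * c ^ 2 * (2 * c - 1) * (1 - c) * x + μ' * x ^ 2)
      + c * (12 * c ^ 2 * (2 * c - 1) + 6 * (2 * c + 1) * (1 - c) * x) * (2 * c * (2 * c - 1))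
        * (η + y) ^ 2
      + c * (1 - c) * y ^ 2 * PY + c * Q
      = 12 * c ^ 2 * (2 * c - 1) ^ 2 * (1 - c) * (1 / 4 + η ^ 2 - s) := by
    rw [hμ, hPY, hQ]
    linear_combination (-4 * c ^ 2 * (2 * c - 1) * (1 - c) +
      ((20 * c ^ 3 - 26 * c ^ 2 + 17 * c - 3) / 2 + (1 - c) * (8 * c - 2) / 2 * x) * x) * e1 +
      (((20 * c ^ 3 - 26 * c ^ 2 + 17 * c - 3) / 2 + (1 - c) * (8 * c - 2) / 2 * x) * y) * e2
      - 6 * c ^ 2 * (2 * c - 1) * e3 + 6 * c * (2 * c - 1) * (η + y / 3) * e4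
  have hμ' : c * (2 * c - 1) * (1 - c) ≤ 3 * μ' := mu_bound c x hc0 hc1 hx.le
  have hμ0 : 0 < μ' := by
    have : 0 < c * (2 * c - 1) * (1 - c) := by positivity
    linarith
  have t1 : 0 ≤ 12 * c * (2 * c - 1) * (1 - c) * η ^ 2
        + 4 * c * (2 * c - 1) * (1 - c) * η * y + μ' * y ^ 2 := by
    have h : 0 ≤ (c * (2 * c - 1) * (1 - c)) * ((6 * η + y) ^ 2 / 3) := by positivity
    have h' : 0 ≤ (3 * μ' - c * (2 * c - 1) * (1 - c)) * y ^ 2 :=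
      mul_nonneg (by linarith) (sq_nonneg y)
    have e : 12 * c * (2 * c - 1) * (1 - c) * η ^ 2
        + 4 * c * (2 * c - 1) * (1 - c) * η * y + μ' * y ^ 2
        = (c * (2 * c - 1) * (1 - c)) * ((6 * η + y) ^ 2 / 3)
          + (3 * μ' - c * (2 * c - 1) * (1 - c)) * y ^ 2 / 3 := by ring
    rw [e]; linarith
  have t2 : 0 ≤ 12 * c ^ 3 * (2 * c - 1) * (1 - c)
        - 4 * c ^ 2 * (2 * c - 1) * (1 - c) * x + μ' * x ^ 2 := by
    have h : 0 ≤ (c * (2 * c - 1) * (1 - c)) * ((6 * c - x) ^ 2 / 3) := by positivity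
    have h' : 0 ≤ (3 * μ' - c * (2 * c - 1) * (1 - c)) * x ^ 2 :=
      mul_nonneg (by linarith) (sq_nonneg x)
    have e : 12 * c ^ 3 * (2 * c - 1) * (1 - c)
        - 4 * c ^ 2 * (2 * c - 1) * (1 - c) * x + μ' * x ^ 2
        = (c * (2 * c - 1) * (1 - c)) * ((6 * c - x) ^ 2 / 3)
          + (3 * μ' - c * (2 * c - 1) * (1 - c)) * x ^ 2 / 3 := by ring
    rw [e]; linarith
  have t3 : 0 ≤ c * (12 * c ^ 2 * (2 * c - 1) + 6 * (2 * c + 1) * (1 - c) * x) *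
      (2 * c * (2 * c - 1)) * (η + y) ^ 2 := by
    have : 0 ≤ x := hx.le
    positivity
  have t4 : 0 ≤ c * (1 - c) * y ^ 2 * PY := by
    apply mul_nonneg (by positivity)
    rw [hPY]
    exact pY c x hc0 hc1 hx.le
  have t5 : 0 < Q := by
    have h := quart (2 * c - 1) x hκ (by linarith) hx.le
    rw [hQ]
    have e : (1 + (2 * c - 1)) / 2 = c := by ring
    rw [e] at h
    linarith
  have t6 : 12 * c ^ 2 * (2 * c - 1) ^ 2 * (1 - c) * (1 / 4 + η ^ 2 - s) ≤ 0 := by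
    apply mul_nonpos_of_nonneg_of_nonpos
    · positivity
    · linarith
  have t7 : 0 ≤ (1 - c) * wr * (12 * c * (2 * c - 1) * (1 - c) * η ^ 2
        + 4 * c * (2 * c - 1) * (1 - c) * η * y + μ' * y ^ 2 + 12 * c ^ 3 * (2 * c - 1) * (1 - c)
        - 4 * c ^ 2 * (2 * c - 1) * (1 - c) * x + μ' * x ^ 2) :=
    mul_nonneg (mul_nonneg hc1'.le hwr) (by linarith)
  have t8 : 0 < c * Q := mul_pos hc t5
  linarith

end Pool.Agent.TH775.AC.RR
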