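import Mathlib
import Pool.Agent.TH775.AC.R

set_option autoImplicit false

namespace Pool.Agent.TH775.AC.RR

theorem W_id (c k l n w : ℂ) (hc : c ≠ 0) (hl : l ≠ 0) (hk : k ≠ 0) (hn : n ≠ 0)
    (hkc : k = 2 * c - 1) (hlc : l = 1 - c)
    (r γ : ℂ) (hγ : γ = (n - 2 * c) * c / l)
    (hr : r = (2 - n - l / c * n⁻¹ + l / c * w * (n⁻¹ - 1 / (2 * c))) /
      (l / c * (k / c))) :
    l * γ * w = 2 * c ^ 2 * k * (1 + 2 * c) - 4 * c ^ 2 * k * r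
      - 4 * c ^ 2 * k * γ - 2 * l * k * r * γ
      - 2 * c * l * γ ^ 2 := by
  rw [hr, hγ]
  field_simp
  subst hkc hlc
  ring

theorem E_id (c k l n w : ℂ) (hc : c ≠ 0) (hl : l ≠ 0) (hk : k ≠ 0) (hn : n ≠ 0)
    (hkc : k = 2 * c - 1) (hlc : l = 1 - c)
    (r γ T rp : ℂ) (hγ : γ = (n - 2 * c) * c / l)
    (hr : r = (2 - n - l / c * n⁻¹ + l / c * w * (n⁻¹ - 1 / (2 * c))) / (l / c * (k / c)))
    (hT : T = (-(k / c) * n⁻¹ * (w + 1) / 2 + (1 + (w - 1) * n⁻¹) * (1 - n⁻¹)) / (k / c))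
    (hrp : rp = (T * n ^ 2 - l / c * T + l / c * ((w ^ 2 - 1) / 2) *
      (n⁻¹ - 1 / (2 * c)) + l / c * w * T) / (l / c * (k / c))) :
    2 * k * l * rp = 2 * l ^ 2 * (c - r) * w
      - 2 * c * (1 - c ^ 2) * γ ^ 2 - 2 * c * (2 * c + 1) * l * r * γ
      - 2 * k * l * r ^ 2 + γ * (-c * (8 * c ^ 3 + 4 * c ^ 2 - 9 * c + 1))
      + r * (4 * c * k * (1 - c - c ^ 2))
      + (1 / 2 - 1 / 2 * c + 2 * c ^ 2 - 12 * c ^ 3 + 8 * c ^ 4 + 8 * c ^ 5) := by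
  rw [hrp, hT, hr, hγ]
  field_simp
  subst hkc hlc
  ring

end Pool.Agent.TH775.AC.RR

namespace Pool.Agent.TH775.AC.RR

theorem alg_contra (α : ℝ) (hα0 : 0 < α) (hα1 : α < 1) (m w T r rp : ℂ) (kk : ℝ) (hkk : 1 ≤ kk)
    (hm : m ≠ 0) (hn : 2 / (2 - α) < (m⁻¹).re) (hw : 0 ≤ w.re)
    (hT : (α : ℂ) * T = -(α : ℂ) * m * (w + 1) / 2 + (1 + (w - 1) * m) * (1 - m))
    (hr : r = (2 - m⁻¹ - (1 - (α : ℂ)) * m + (1 - (α : ℂ)) * w * (m - (1 - (α : ℂ) / 2))) /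
      ((1 - (α : ℂ)) * α))
    (hrp : rp = (T / m ^ 2 - (1 - (α : ℂ)) * T + (1 - (α : ℂ)) * ((w ^ 2 - 1) / 2) *
      (m - (1 - (α : ℂ) / 2)) + (1 - (α : ℂ)) * w * T) / ((1 - (α : ℂ)) * α))
    (hr0 : r.re = 0) (hrp0 : rp = ((-(kk * (1 / 4 + r.im ^ 2)) : ℝ) : ℂ)) : False := by
  have h2α : 0 < 2 - α := by linarith
  obtain ⟨c, hc⟩ : ∃ c : ℝ, c = 1 / (2 - α) := ⟨_, rfl⟩
  have hc0 : 1 / 2 < c := by
    rw [hc, div_lt_div_iff₀ (by norm_num) h2α]; linarith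
  have hc1 : c < 1 := by
    rw [hc, div_lt_one h2α]; linarith
  have hcpos : 0 < c := by linarith
  have hαc : α = (2 * c - 1) / c := by
    rw [hc]; field_simp; ring
  have hcC : (c : ℂ) ≠ 0 := by exact_mod_cast hcpos.ne'
  have hkC : ((2 * c - 1 : ℝ) : ℂ) ≠ 0 := by
    have : (2 * c - 1 : ℝ) ≠ 0 := by linarith
    exact_mod_cast this
  have hlC : ((1 - c : ℝ) : ℂ) ≠ 0 := by
    have : (1 - c : ℝ) ≠ 0 := by linarith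
    exact_mod_cast this
  have hα' : (α : ℂ) = ((2 * c - 1 : ℝ) : ℂ) / c := by
    rw [hαc]; push_cast; ring
  have h1α : (1 - (α : ℂ)) = ((1 - c : ℝ) : ℂ) / c := by
    rw [hα']; field_simp; push_cast; ring
  have hμ : (1 - (α : ℂ) / 2) = 1 / (2 * (c : ℂ)) := by
    rw [hα']; field_simp; push_cast; ring
  obtain ⟨n, hnn⟩ : ∃ n : ℂ, n = m⁻¹ := ⟨_, rfl⟩
  have hn0 : n ≠ 0 := by rw [hnn]; exact inv_ne_zero hm
  have hmn : m = n⁻¹ := by rw [hnn, inv_inv]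
  obtain ⟨γ, hγ⟩ : ∃ γ : ℂ, γ = (n - 2 * (c : ℂ)) * c / ((1 - c : ℝ) : ℂ) := ⟨_, rfl⟩
  have hαC : (α : ℂ) ≠ 0 := by exact_mod_cast hα0.ne'
  have hr' : r = (2 - n - ((1 - c : ℝ) : ℂ) / c * n⁻¹ + ((1 - c : ℝ) : ℂ) / c * w *
      (n⁻¹ - 1 / (2 * (c : ℂ)))) / (((1 - c : ℝ) : ℂ) / c * (((2 * c - 1 : ℝ) : ℂ) / c)) := by
    rw [hr, hμ, h1α, hα', hmn, inv_inv]
  have hT' : T = (-(((2 * c - 1 : ℝ) : ℂ) / c) * n⁻¹ * (w + 1) / 2 +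
      (1 + (w - 1) * n⁻¹) * (1 - n⁻¹)) / (((2 * c - 1 : ℝ) : ℂ) / c) := by
    rw [← hα', eq_div_iff hαC, mul_comm, hT, hmn]
  have hrp' : rp = (T * n ^ 2 - ((1 - c : ℝ) : ℂ) / c * T + ((1 - c : ℝ) : ℂ) / c *
      ((w ^ 2 - 1) / 2) * (n⁻¹ - 1 / (2 * (c : ℂ))) + ((1 - c : ℝ) : ℂ) / c * w * T) /
      (((1 - c : ℝ) : ℂ) / c * (((2 * c - 1 : ℝ) : ℂ) / c)) := by
    rw [hrp, hμ, h1α, hα', hmn]
    congr 1
    rw [inv_pow, div_inv_eq_mul]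
  have hk1 : ((2 * c - 1 : ℝ) : ℂ) = 2 * (c : ℂ) - 1 := by push_cast; ring
  have hl1 : ((1 - c : ℝ) : ℂ) = 1 - (c : ℂ) := by push_cast; ring
  have HW := W_id (c : ℂ) _ _ n w hcC hlC hkC hn0 hk1 hl1 r γ hγ hr'
  have HE := E_id (c : ℂ) _ _ n w hcC hlC hkC hn0 hk1 hl1 r γ T rp hγ hr' hT' hrp'
  have hx : 0 < γ.re := by
    have e : γ = ((c / (1 - c) : ℝ) : ℂ) * (n - ((2 * c : ℝ) : ℂ)) := by
      rw [hγ]; push_cast; ring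
    rw [e, Complex.re_ofReal_mul, Complex.sub_re, Complex.ofReal_re, hnn]
    have h1 : 0 < c / (1 - c) := div_pos hcpos (by linarith)
    have h2 : 2 * c < (m⁻¹).re := by
      have : 2 * c = 2 / (2 - α) := by rw [hc]; ring
      rw [this]; exact hn
    exact mul_pos h1 (by linarith)
  have hrη : r = ⟨0, r.im⟩ := by
    apply Complex.ext
    · exact hr0
    · rfl
  obtain ⟨η, hη⟩ : ∃ η : ℝ, η = r.im := ⟨_, rfl⟩
  rw [← hη] at hrη hrp0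
  have hHW1 := congrArg Complex.re HW
  have hHW2 := congrArg Complex.im HW
  have hHE1 := congrArg Complex.re HE
  have hHE2 := congrArg Complex.im HE
  rw [hrp0] at hHE1 hHE2
  rw [hrη] at hHW1 hHW2 hHE1 hHE2
  simp [pow_two, pow_succ] at hHW1 hHW2 hHE1 hHE2
  refine final_real c γ.re γ.im η w.re w.im (kk * (1 / 4 + η ^ 2)) hc0 hc1 hx hw ?_ ?_ ?_ ?_ ?_
  · have : 0 ≤ 1 / 4 + η ^ 2 := by positivity
    nlinarith
  · linear_combination hHW1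
  · linear_combination hHW2
  · linear_combination hHE1
  · linear_combination hHE2

end Pool.Agent.TH775.AC.RR
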