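import Mathlib
import Pool.Agent.TH775.AC.R2
import Pool.Agent.TH775.AC.Stmts

set_option autoImplicit false

open Complex Metric Set

namespace Pool.Agent.TH775.AC

theorem r_of (h1 : S_N1) (hH : S_HP) : S_R := by
  intro α L m hα0 hα1 hK
  have hN := h1 α L m hα0 hα1 hK
  have hαC : (α : ℂ) ≠ 0 := by exact_mod_cast hα0.ne'
  have h1αC : (1 - (α : ℂ)) ≠ 0 := by
    have : ((1 - α : ℝ) : ℂ) ≠ 0 := by
      have : (1 - α : ℝ) ≠ 0 := by linarith
      exact_mod_cast this
    intro h; apply this; push_cast; exact h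
  have h1pαC : (1 + (α : ℂ)) ≠ 0 := by
    have : ((1 + α : ℝ) : ℂ) ≠ 0 := by
      have : (1 + α : ℝ) ≠ 0 := by linarith
      exact_mod_cast this
    intro h; apply this; push_cast; exact h
  have hz1 : ∀ z ∈ ball (0 : ℂ) 1, (1 - z) ≠ 0 := by
    intro z hz h
    have : z = 1 := by linear_combination -h
    rw [this] at hz
    simp at hz
  have hder : ∀ z ∈ ball (0 : ℂ) 1, HasDerivAt (rr α m)
      ((deriv m z / (m z) ^ 2 - (1 - (α : ℂ)) * deriv m z +
        ((1 - (α : ℂ)) * (2 / (1 - z) ^ 2) * (m z - (1 - (α : ℂ) / 2)) +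
         (1 - (α : ℂ)) * ((1 + z) / (1 - z)) * deriv m z)) / ((1 - (α : ℂ)) * α)) z := by
    intro z hz
    have hm0 := (hN z hz).1
    have hmd : HasDerivAt m (deriv m z) z :=
      (hK.dm.differentiableAt (isOpen_ball.mem_nhds hz)).hasDerivAt
    have hinv : HasDerivAt (fun z => (m z)⁻¹) (-deriv m z / (m z) ^ 2) z := hmd.inv hm0
    have hw : HasDerivAt (fun z : ℂ => (1 + z) / (1 - z)) (2 / (1 - z) ^ 2) z := by
      have h2 : HasDerivAt (fun z : ℂ => 1 + z) 1 z := by
        simpa using (hasDerivAt_id z).const_add (1 : ℂ)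
      have h3 : HasDerivAt (fun z : ℂ => 1 - z) (-1) z := by
        simpa using (hasDerivAt_id z).const_sub (1 : ℂ)
      have h4 := h2.div h3 (hz1 z hz)
      have e4 : (1 * (1 - z) - (1 + z) * (-1)) / (1 - z) ^ 2 = 2 / (1 - z) ^ 2 := by
        congr 1; ring
      rw [e4] at h4
      exact h4
    have h5 := ((((hasDerivAt_const z (2 : ℂ)).sub hinv).sub
      (hmd.const_mul (1 - (α : ℂ)))).add
      ((hw.const_mul (1 - (α : ℂ))).mul (hmd.sub_const (1 - (α : ℂ) / 2)))).div_const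
      ((1 - (α : ℂ)) * α)
    have e : rr α m = fun z => (2 - (m z)⁻¹ - (1 - (α : ℂ)) * m z +
        (1 - (α : ℂ)) * ((1 + z) / (1 - z)) * (m z - (1 - (α : ℂ) / 2))) /
        ((1 - (α : ℂ)) * α) := by
      funext z; rfl
    rw [e]
    refine h5.congr_deriv ?_
    congr 1
    ring
  have hdiff : DifferentiableOn ℂ (rr α m) (ball 0 1) := fun z hz =>
    (hder z hz).differentiableAt.differentiableWithinAt
  have h0 : rr α m 0 = ((1 / 2 : ℝ) : ℂ) := by
    unfold rr
    rw [hK.m0]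
    push_cast
    field_simp
    ring
  apply hH (rr α m) (1 / 2) (by norm_num) hdiff h0
  intro z hz hzne hre k hk hkey
  have hm0 := (hN z hz).1
  have hode := hK.ode z hz
  have hz1' := hz1 z hz
  obtain ⟨T, hT⟩ : ∃ T : ℂ, T = z * deriv m z := ⟨_, rfl⟩
  obtain ⟨w, hw⟩ : ∃ w : ℂ, w = (1 + z) / (1 - z) := ⟨_, rfl⟩
  have hwre : 0 ≤ w.re := by
    have e : w = (1 + z) * (starRingEnd ℂ (1 - z)) / ((Complex.normSq (1 - z) : ℝ) : ℂ) := by
      rw [hw, ← Complex.mul_conj, mul_div_mul_right]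
      intro h
      apply hz1'
      exact (map_eq_zero _).mp h
    rw [e, Complex.div_ofReal_re]
    apply div_nonneg _ (Complex.normSq_nonneg _)
    have hz' : ‖z‖ < 1 := by simpa using hz
    have h2 : z.re ^ 2 + z.im ^ 2 < 1 := by
      have h3 : ‖z‖ ^ 2 < 1 := by nlinarith [norm_nonneg z]
      rw [← Complex.normSq_eq_norm_sq, Complex.normSq_apply] at h3
      nlinarith
    simp [Complex.mul_re]
    nlinarith
  refine RR.alg_contra α hα0 hα1 (m z) w T (rr α m z) (z * deriv (rr α m) z) k hk hm0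
    (hN z hz).2 hwre ?_ ?_ ?_ hre ?_
  · -- ode in w form
    rw [hw, hT]
    have e : (1 - z) * ((α : ℂ) * (z * deriv m z)) =
        (1 - z) * (-(α : ℂ) * m z * ((1 + z) / (1 - z) + 1) / 2 +
          (1 + ((1 + z) / (1 - z) - 1) * m z) * (1 - m z)) := by
      have e2 : (1 - z) * (-(α : ℂ) * m z * ((1 + z) / (1 - z) + 1) / 2 +
          (1 + ((1 + z) / (1 - z) - 1) * m z) * (1 - m z)) =
          -((α : ℂ) * m z) + (1 - z + 2 * z * m z) * (1 - m z) := by
        field_simp
        ring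
      rw [e2, ← hode]
      ring
    exact mul_left_cancel₀ hz1' e
  · rw [hw]; rfl
  · rw [(hder z hz).deriv, hT, hw]
    field_simp
    ring
  · rw [hkey]
    congr 1
    ring

end Pool.Agent.TH775.AC
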