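import Mathlib
import Pool.Agent.TH775.AC.R3
import Pool.Agent.TH73.AC.Jack
import Pool.Agent.TH999.AC.AC5
import Pool.Agent.TH576.ACKd
import Pool.Agent.TH576.ACN2
import Pool.Agent.TH576.ACKap
import Pool.Agent.TH576.ACInj
import Pool.Agent.TH55.J2770
import Pool.Agent.TH656.AC.PosP
import Pool.Agent.TH558.AC.Key
import Pool.Agent.TH914.AC.HullS
import Pool.Agent.TH914.AC.Comp
import Pool.Agent.TH75.AC_13
import Pool.Agent.TH592.AC_DER
import Pool.Agent.TH592.AC_LOG
import Pool.Agent.TH443.AC.Ext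
import Pool.Agent.TH443.AC.Coef
import Pool.Agent.TH242.AC2.V4
import Pool.Agent.TH242.AC2.Y3
import Pool.Agent.TH242.AC2.Q2

set_option autoImplicit false

open Complex Metric Set Topology Filter
open scoped BigOperators

namespace Pool.Agent.TH775.AC

open Pool.Agent.H713R2 (tc)

namespace Asm

theorem quot : S_QUOT := quot_of jack
theorem hp : S_HP := hp_of quot
theorem n1 : S_N1 := n1_of quot
theorem n2 : S_N2 := n2_of n1
theorem r : S_R := r_of n1 hp
theorem kap : S_KAP := kap_of n1 r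
theorem injL : S_INJ := inj_of n1 n2
theorem aa : S_A := a_of hp
theorem bb : S_B := b_of hp aa
theorem key : S_KEY := key_of n1 n2 aa bb
theorem sub : S_SUB := sub_of jack
theorem v : S_V := v_of hull alg der comp
theorem kd : S_KD := kd_of y_exists hp
theorem coef : S_COEF := coef_of hull

lemma one_sub_ne {z : ℂ} (hz : z ∈ ball (0 : ℂ) 1) : 1 - z ≠ 0 := by
  intro h
  have : z = 1 := by linear_combination -h
  rw [this, mem_ball_zero_iff, norm_one] at hz
  exact lt_irrefl _ hz

/-- subordination of the logarithms -/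
theorem subl : S_SUBL := by
  intro α L m l h0 h1 hK hl
  refine sub L l hK.dL (injL α L m h0 h1 hK) ?_ hK.L0 hl.dl hl.l0 ?_
  · intro z hz
    rw [hK.derivL z hz]
    exact div_ne_zero (mul_ne_zero two_ne_zero (n1 α L m h0 h1 hK z hz).1) (one_sub_ne hz)
  · exact key α L m l h0 h1 hK hl

lemma tc_shift {g : ℂ → ℂ} (hg : DifferentiableOn ℂ g (ball 0 1)) (n : ℕ) :
    tc (fun z => z * g z) (n + 1) = tc g n := by
  have h := Pool.Agent.H713R2.tc_unique
    (a := fun n => if n = 0 then (0 : ℂ) else tc g (n - 1)) (F := fun z => z * g z) one_pos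
    (differentiableOn_id.mul hg) ?_
  · rw [← h]
    simp
  · filter_upwards [ball_mem_nhds (0 : ℂ) one_pos] with x hx
    have h1 := (Pool.Agent.H713R2.hasSum_tc hg hx).mul_left x
    have h2 : HasSum (fun k : ℕ => (if k + 1 = 0 then (0 : ℂ) else tc g (k + 1 - 1)) * x ^ (k + 1))
        (x * g x) := by
      refine h1.congr_fun fun k => ?_
      rw [if_neg (Nat.succ_ne_zero k), Nat.add_sub_cancel]
      ring
    have h3 := HasSum.zero_add
      (f := fun k : ℕ => (if k = 0 then (0 : ℂ) else tc g (k - 1)) * x ^ k) h2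
    simpa using h3

lemma tc_congr_ball {F G : ℂ → ℂ} (h : ∀ z ∈ ball (0 : ℂ) 1, F z = G z) (n : ℕ) :
    tc F n = tc G n := by
  have h1 : F =ᶠ[𝓝 0] G := by
    filter_upwards [ball_mem_nhds (0 : ℂ) one_pos] with x hx using h x hx
  unfold Pool.Agent.H713R2.tc
  rw [h1.iteratedDeriv_eq]

/-- the derivative of `XX` in terms of `kap`; the hypotheses of `S_V` for `K = exp L` -/
theorem coef_le {α : ℝ} {L m l : ℂ → ℂ} (h0 : 0 < α) (h1 : α < 1) (hK : KD α L m) (hl : ML α l)
    (N : ℕ) (hN : 1 ≤ N) :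
    ‖tc (fun z => Complex.exp (l z)) N‖ ≤ ‖tc (fun z => Complex.exp (L z)) N‖ := by
  obtain ⟨ω, hω, hωn, hωe⟩ := subl α L m l h0 h1 hK hl
  obtain ⟨κ, dκ, hκ1, hκ2⟩ := kap α L m h0 h1 hK
  have dE : DifferentiableOn ℂ (fun z => Complex.exp (L z)) (ball 0 1) := hK.dL.cexp
  have dX : DifferentiableOn ℂ (XX L m) (ball 0 1) := by
    unfold XX
    exact (((differentiableOn_const _).mul hK.dm).mul
      ((differentiableOn_const _).sub differentiableOn_id)).mul dE
  have hd : ∀ z ∈ ball (0 : ℂ) 1, deriv (fun z => Complex.exp (L z)) z * (1 - z) ^ 2 = XX L m z := by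
    intro z hz
    have dLz : HasDerivAt L (deriv L z) z :=
      (hK.dL.differentiableAt (isOpen_ball.mem_nhds hz)).hasDerivAt
    rw [dLz.cexp.deriv, hK.derivL z hz, XX]
    have := one_sub_ne hz
    field_simp
  have h := v (fun z => Complex.exp (L z)) (XX L m) κ (1 - α) N (by linarith) hN dE dX dκ hd hκ1
    hκ2 ω hω hωn
  rw [tc_congr_ball (G := fun z => Complex.exp (l z)) (fun z hz => by simp only [hωe z hz]) N] at h
  exact h

theorem coef_le' {α : ℝ} {L m f : ℂ → ℂ} (h0 : 0 < α) (h1 : α < 1) (hK : KD α L m)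
    (hf : MClass α f) (N : ℕ) (hN : 1 ≤ N) :
    ‖tc f (N + 1)‖ ≤ Acoef α (N + 1) := by
  obtain ⟨l, hl, hfl⟩ := log_of α f h0 h1 hf
  have e1 : tc f (N + 1) = tc (fun z => Complex.exp (l z)) N := by
    rw [← tc_shift hl.dl.cexp N]
    exact tc_congr_ball hfl (N + 1)
  have e2 : ‖tc (fun z => Complex.exp (L z)) N‖ = Acoef α (N + 1) := by
    have hc := coef α L m h0 h1 hK (N + 1)
    rw [← tc_shift hK.dL.cexp N, hc.1, Complex.norm_real, Real.norm_of_nonneg hc.2]
  rw [e1, ← e2]
  exact coef_le h0 h1 hK hl N hN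

end Asm

end Pool.Agent.TH775.AC
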