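import Mathlib
import Pool.Agent.TH775.AC.Main

set_option autoImplicit false

open Complex Metric Set Topology Filter
open scoped BigOperators

namespace Pool.Agent.TH775.AC

open Pool.Agent.H713R2 (tc)

namespace Asm

/-- the coefficients of `(K_α(z)/z)^(1/α)` -/
noncomputable def hyp (α : ℝ) (k : ℕ) : ℝ :=
  (∏ j ∈ Finset.range k, (2 / α + (j : ℝ)) / ((j : ℝ) + 1)) / (1 + α * (k : ℝ))

lemma tc_P {β : ℂ} {P : ℂ → ℂ} (hP : DifferentiableOn ℂ P (ball 0 1)) (hP0 : P 0 = 1)
    (hd : ∀ z ∈ ball (0 : ℂ) 1, (1 - z) * deriv P z = β * P z) (k : ℕ) :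
    tc P k = ∏ j ∈ Finset.range k, (β + (j : ℂ)) / ((j : ℂ) + 1) := by
  induction k with
  | zero => rw [Pool.Agent.H713R2.tc_zero, hP0]; simp
  | succ k ih =>
    rw [Finset.prod_range_succ, ← ih]
    have hP' : DifferentiableOn ℂ (fun z => z * deriv P z) (ball 0 1) :=
      differentiableOn_id.mul (hP.deriv isOpen_ball)
    -- deriv P = β P + z * deriv P
    have e : tc (deriv P) k = tc (fun z => β * P z + z * deriv P z) k :=
      tc_congr_ball (fun z hz => by rw [← hd z hz]; ring) k
    rw [Pool.Agent.H713R2.tc_deriv, H443Coef.tc_add one_pos (hP.const_mul β)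
      hP', H443Coef.tc_smul β one_pos hP,
      H443Coef.tc_theta one_pos hP] at e
    have hne : ((k : ℂ) + 1) ≠ 0 := by exact_mod_cast Nat.succ_ne_zero k
    field_simp
    linear_combination e

theorem hyp_hasSum {α : ℝ} {L m : ℂ → ℂ} (h0 : 0 < α) (hK : KD α L m) (z : ℂ)
    (hz : z ∈ ball (0 : ℂ) 1) :
    HasSum (fun k : ℕ => (hyp α k : ℂ) * z ^ k) (Complex.exp (L z / α)) := by
  have hα : (α : ℂ) ≠ 0 := by exact_mod_cast h0.ne'
  have dG : DifferentiableOn ℂ (fun z => Complex.exp (L z / α)) (ball 0 1) :=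
    (hK.dL.div_const _).cexp
  have dlog : DifferentiableOn ℂ (fun z : ℂ => Complex.log (1 - z)) (ball 0 1) := by
    intro w hw
    refine DifferentiableAt.differentiableWithinAt ?_
    refine DifferentiableAt.clog (by fun_prop) ?_
    left
    rw [mem_ball_zero_iff] at hw
    have := (abs_le.1 ((Complex.abs_re_le_norm w).trans hw.le)).2
    have h3 : w.re < 1 := lt_of_le_of_lt (Complex.re_le_norm w) hw
    simpa using h3
  set P : ℂ → ℂ := fun z => Complex.exp (2 / α * (-Complex.log (1 - z))) with hPdef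
  have dP : DifferentiableOn ℂ P (ball 0 1) := (dlog.neg.const_mul _).cexp
  have hder : ∀ w ∈ ball (0 : ℂ) 1, (1 - w) * deriv P w = 2 / α * P w := by
    intro w hw
    have hw1 := one_sub_ne hw
    have hsl : (1 - w) ∈ Complex.slitPlane := by
      left
      rw [mem_ball_zero_iff] at hw
      have h3 : w.re < 1 := lt_of_le_of_lt (Complex.re_le_norm w) hw
      simpa using h3
    have h1 : HasDerivAt (fun z : ℂ => 1 - z) (-1) w := by
      simpa using (hasDerivAt_id w).const_sub (1 : ℂ)
    have h2 := h1.clog hsl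
    have h3 := (h2.fun_neg.const_mul (2 / (α : ℂ))).cexp
    have h4 : HasDerivAt P _ w := h3
    rw [h4.deriv, hPdef]
    field_simp
  have hP0 : P 0 = 1 := by simp [hPdef]
  have hρ : ∀ w ∈ ball (0 : ℂ) 1,
      Complex.exp (L w / α) + α * (w * deriv (fun z => Complex.exp (L z / α)) w) = P w := by
    intro w hw
    have dLz : HasDerivAt L (deriv L w) w :=
      (hK.dL.differentiableAt (isOpen_ball.mem_nhds hw)).hasDerivAt
    have hρ0 : 1 + 2 * w * m w / (1 - w) ≠ 0 := by
      intro hh
      have := hK.rho w hw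
      rw [hh] at this
      simp at this
    have h5 : P w = (1 + 2 * w * m w / (1 - w)) * Complex.exp (L w / α) := by
      have h6 : 2 / α * (-Complex.log (1 - w)) =
          Complex.log (1 + 2 * w * m w / (1 - w)) + L w / α := by
        have := hK.logid w hw
        field_simp
        linear_combination -this
      rw [hPdef]
      simp only
      rw [h6, Complex.exp_add, Complex.exp_log hρ0]
    rw [(dLz.div_const (α : ℂ)).cexp.deriv, h5, hK.derivL w hw]
    have := one_sub_ne hw
    field_simp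
  have hc : ∀ k, tc (fun z => Complex.exp (L z / α)) k = (hyp α k : ℂ) := by
    intro k
    have e := tc_congr_ball (F := fun z => Complex.exp (L z / α) +
      α * (z * deriv (fun z => Complex.exp (L z / α)) z)) hρ k
    have d2 : DifferentiableOn ℂ (fun z => z * deriv (fun z => Complex.exp (L z / α)) z)
        (ball 0 1) := differentiableOn_id.mul (dG.deriv isOpen_ball)
    rw [H443Coef.tc_add one_pos dG (d2.const_mul (α : ℂ)),
      H443Coef.tc_smul _ one_pos d2, H443Coef.tc_theta one_pos dG,
      tc_P dP hP0 hder k] at e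
    have hne : (1 + (α : ℂ) * (k : ℂ)) ≠ 0 := by
      have : (0 : ℝ) < 1 + α * (k : ℝ) := by positivity
      exact_mod_cast this.ne'
    rw [hyp]
    push_cast
    rw [eq_div_iff hne]
    linear_combination e
  refine (Pool.Agent.H713R2.hasSum_tc dG hz).congr_fun fun k => ?_
  rw [hc k]

open H443Ext Pool.Agent.Helper968.Schild in
/-- the differential equation of the extremal function -/
theorem ext_ode {α : ℝ} {L m : ℂ → ℂ} (h : KD α L m) {z : ℂ} (hz : z ∈ ball (0 : ℂ) 1)
    (hz0 : z ≠ 0) :
    (α : ℂ) * (1 + z * deriv (deriv fun z => z * Complex.exp (L z)) z /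
        deriv (fun z => z * Complex.exp (L z)) z) +
        (1 - (α : ℂ)) * (z * deriv (fun z => z * Complex.exp (L z)) z /
          (z * Complex.exp (L z))) = (1 + z) / (1 - z) := by
  have hder := starlike_aux_hasDeriv h.dL
  have h1 := H443Ext.one_sub_ne hz
  set ρ : ℂ := 1 + 2 * z * m z / (1 - z) with hρ
  have hρ0 : ρ ≠ 0 := by
    intro hh
    have := h.rho z hz
    rw [← hρ, hh] at this
    simp at this
  have d1 : deriv (fun z => z * Complex.exp (L z)) z = Complex.exp (L z) * ρ := by
    rw [(hder z hz).deriv, rho_eq h hz]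
  have hev : deriv (fun z => z * Complex.exp (L z)) =ᶠ[nhds z]
      fun z => Complex.exp (L z) * (1 + 2 * z * m z / (1 - z)) := by
    filter_upwards [isOpen_ball.mem_nhds hz] with x hx
    rw [(hder x hx).deriv, rho_eq h hx]
  have dL : HasDerivAt L (deriv L z) z :=
    (h.dL.differentiableAt (isOpen_ball.mem_nhds hz)).hasDerivAt
  have d2 : deriv (deriv (fun z => z * Complex.exp (L z))) z =
      Complex.exp (L z) * deriv L z * ρ +
        Complex.exp (L z) * ((2 * m z + 2 * z * (1 - z) * deriv m z) / (1 - z) ^ 2) := by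
    rw [hev.deriv_eq]
    exact (dL.cexp.fun_mul (rho_der h hz)).deriv
  have hexp := Complex.exp_ne_zero (L z)
  rw [d1, d2]
  have e1 : z * (Complex.exp (L z) * deriv L z * ρ +
      Complex.exp (L z) * ((2 * m z + 2 * z * (1 - z) * deriv m z) / (1 - z) ^ 2)) /
      (Complex.exp (L z) * ρ) =
      z * deriv L z + z * ((2 * m z + 2 * z * (1 - z) * deriv m z) / (1 - z) ^ 2) / ρ := by
    field_simp
  have e2 : z * (Complex.exp (L z) * ρ) / (z * Complex.exp (L z)) = ρ := by
    field_simp
  rw [e1, e2]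
  have e3 : z * deriv L z = ρ - 1 := by
    rw [hρ, ← rho_eq h hz]; ring
  rw [e3]
  have hode := h.ode z hz
  have e4 : (α : ℂ) * (z * ((2 * m z + 2 * z * (1 - z) * deriv m z) / (1 - z) ^ 2)) =
      2 * z * (1 - m z) / (1 - z) * ρ := by
    have hr : ρ = (1 - z + 2 * z * m z) / (1 - z) := by
      rw [hρ]; field_simp
    rw [hr, ← mul_div_assoc, ← mul_div_assoc, div_mul_div_comm, ← pow_two]
    congr 1
    linear_combination (2 * z) * hode
  have e5 : (α : ℂ) * (z * ((2 * m z + 2 * z * (1 - z) * deriv m z) / (1 - z) ^ 2) / ρ) =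
      2 * z * (1 - m z) / (1 - z) := by
    rw [← mul_div_assoc, e4]
    field_simp
  have e6 : (α : ℂ) * (1 + (ρ - 1 +
      z * ((2 * m z + 2 * z * (1 - z) * deriv m z) / (1 - z) ^ 2) / ρ)) +
      (1 - (α : ℂ)) * ρ = ρ + 2 * z * (1 - m z) / (1 - z) := by
    rw [← e5]; ring
  rw [e6, hρ]
  field_simp
  ring

end Asm

end Pool.Agent.TH775.AC
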